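import Mathlib

/-!
# Metrics of curvature at least one on the plane: the area is not bounded

For `m > 0` the function
`u(x, y) = (1/2) log (m^2 + 1) - log cosh (m x) - log cosh y`
satisfies `Δ u + e^{2u} ≤ 0` on the plane, and its area is `4 (m + 1/m)`.
-/

open MeasureTheory Filter Topology Set
open scoped ContDiff

namespace Pool.Agent.Results.MP_3ddb5a_an.UnboundedArea

/-- The plane. -/
abbrev Plane : Type := EuclideanSpace ℝ (Fin 2)

/-- One dimensional building block `t ↦ log cosh (a t)`. -/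
noncomputable def lc (a t : ℝ) : ℝ := Real.log (Real.cosh (a * t))

lemma cosh_pos' (t : ℝ) : 0 < Real.cosh t := Real.cosh_pos t

lemma hasDerivAt_lc (a t : ℝ) :
    HasDerivAt (lc a) (a * (Real.sinh (a * t) / Real.cosh (a * t))) t := by
  have h1 : HasDerivAt (fun t : ℝ => a * t) a t := by
    simpa using (hasDerivAt_id t).const_mul a
  have h2 : HasDerivAt (fun t : ℝ => Real.cosh (a * t)) (Real.sinh (a * t) * a) t :=
    (Real.hasDerivAt_cosh (a * t)).comp t h1
  have h3 := h2.log (ne_of_gt (Real.cosh_pos _))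
  exact h3.congr_deriv (by ring)

lemma hasDerivAt_quot (a t : ℝ) :
    HasDerivAt (fun t => a * (Real.sinh (a * t) / Real.cosh (a * t)))
      (a ^ 2 / (Real.cosh (a * t)) ^ 2) t := by
  have h1 : HasDerivAt (fun t : ℝ => a * t) a t := by
    simpa using (hasDerivAt_id t).const_mul a
  have h2 : HasDerivAt (fun t : ℝ => Real.cosh (a * t)) (Real.sinh (a * t) * a) t :=
    (Real.hasDerivAt_cosh (a * t)).comp t h1
  have h3 : HasDerivAt (fun t : ℝ => Real.sinh (a * t)) (Real.cosh (a * t) * a) t :=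
    (Real.hasDerivAt_sinh (a * t)).comp t h1
  have hc : Real.cosh (a * t) ≠ 0 := ne_of_gt (Real.cosh_pos _)
  have h4 := (h3.div h2 hc).const_mul a
  refine h4.congr_deriv ?_
  have hs := Real.cosh_sq_sub_sinh_sq (a * t)
  have e : Real.cosh (a * t) * a * Real.cosh (a * t) - Real.sinh (a * t) * (Real.sinh (a * t) * a)
      = a := by linear_combination a * hs
  rw [e]
  ring

lemma contDiff_lc (a : ℝ) : ContDiff ℝ 2 (lc a) := by
  unfold lc
  apply ContDiff.log
  · exact Real.contDiff_cosh.comp (contDiff_const.mul contDiff_id)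
  · intro x; exact ne_of_gt (Real.cosh_pos _)

lemma iteratedDeriv_two_lc (a t : ℝ) :
    iteratedDeriv 2 (lc a) t = a ^ 2 / (Real.cosh (a * t)) ^ 2 := by
  have h1 : deriv (lc a) = fun t => a * (Real.sinh (a * t) / Real.cosh (a * t)) := by
    funext s; exact (hasDerivAt_lc a s).deriv
  rw [iteratedDeriv_succ, iteratedDeriv_one, h1]
  exact (hasDerivAt_quot a t).deriv

/-- A function of one coordinate on the plane. -/
lemma laplacian_coord (φ : ℝ → ℝ) (hφ : ContDiff ℝ 2 φ) (j : Fin 2) (x : Plane) :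
    Laplacian.laplacian (fun z : Plane => φ (z j)) x = iteratedDeriv 2 φ (x j) := by
  rw [InnerProductSpace.laplacian_eq_iteratedFDeriv_orthonormalBasis _
    (EuclideanSpace.basisFun (Fin 2) ℝ)]
  have hcomp : (fun z : Plane => φ (z j)) = φ ∘ (EuclideanSpace.proj j : Plane →L[ℝ] ℝ) := by
    funext z; rfl
  rw [hcomp]
  have key : ∀ i : Fin 2, (iteratedFDeriv ℝ 2 (φ ∘ (EuclideanSpace.proj j : Plane →L[ℝ] ℝ)) x)
      ![EuclideanSpace.basisFun (Fin 2) ℝ i, EuclideanSpace.basisFun (Fin 2) ℝ i]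
      = if i = j then iteratedDeriv 2 φ (x j) else 0 := by
    intro i
    rw [ContinuousLinearMap.iteratedFDeriv_comp_right (EuclideanSpace.proj j : Plane →L[ℝ] ℝ)
      hφ x (le_refl _)]
    rw [ContinuousMultilinearMap.compContinuousLinearMap_apply]
    have : (fun k : Fin 2 => (EuclideanSpace.proj j : Plane →L[ℝ] ℝ)
        ((![EuclideanSpace.basisFun (Fin 2) ℝ i, EuclideanSpace.basisFun (Fin 2) ℝ i] :
          Fin 2 → Plane) k)) = fun _ => if i = j then (1 : ℝ) else 0 := by
      funext k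
      fin_cases k <;> simp [EuclideanSpace.basisFun_apply, eq_comm]
    rw [this]
    rw [iteratedFDeriv_apply_eq_iteratedDeriv_mul_prod]
    by_cases h : i = j
    · simp [h]
    · simp [h]
  show (∑ i : Fin 2, (iteratedFDeriv ℝ 2 (φ ∘ (EuclideanSpace.proj j : Plane →L[ℝ] ℝ)) x)
      ![EuclideanSpace.basisFun (Fin 2) ℝ i, EuclideanSpace.basisFun (Fin 2) ℝ i])
      = iteratedDeriv 2 φ (x j)
  rw [Finset.sum_congr rfl (fun i _ => key i)]
  simp

/-- The conformal factor. -/
noncomputable def uu (m : ℝ) (z : Plane) : ℝ :=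
  Real.log (m ^ 2 + 1) / 2 - lc m (z 0) - lc 1 (z 1)

lemma contDiff_coord (φ : ℝ → ℝ) (hφ : ContDiff ℝ 2 φ) (j : Fin 2) :
    ContDiff ℝ 2 (fun z : Plane => φ (z j)) :=
  hφ.comp (EuclideanSpace.proj j : Plane →L[ℝ] ℝ).contDiff

lemma contDiff_uu (m : ℝ) : ContDiff ℝ 2 (uu m) := by
  unfold uu
  exact (contDiff_const.sub (contDiff_coord _ (contDiff_lc m) 0)).sub
    (contDiff_coord _ (contDiff_lc 1) 1)

lemma laplacian_uu (m : ℝ) (z : Plane) :
    Laplacian.laplacian (uu m) z
      = - (m ^ 2 / (Real.cosh (m * z 0)) ^ 2) - 1 / (Real.cosh (z 1)) ^ 2 := by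
  have h0 : uu m = (fun z : Plane => Real.log (m ^ 2 + 1) / 2)
      + ((fun z : Plane => (- lc m) (z 0)) + (fun z : Plane => (- lc 1) (z 1))) := by
    funext w; simp only [uu, Pi.add_apply, Pi.neg_apply]; ring
  have c1 : ContDiff ℝ 2 (fun z : Plane => (- lc m) (z 0)) :=
    contDiff_coord _ (contDiff_lc m).neg 0
  have c2 : ContDiff ℝ 2 (fun z : Plane => (- lc 1) (z 1)) :=
    contDiff_coord _ (contDiff_lc 1).neg 1
  have c12 : ContDiff ℝ 2 ((fun z : Plane => (- lc m) (z 0)) + (fun z : Plane => (- lc 1) (z 1))) :=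
    c1.add c2
  have c0 : ContDiff ℝ 2 (fun z : Plane => Real.log (m ^ 2 + 1) / 2) := contDiff_const
  rw [h0, ContDiffAt.laplacian_add c0.contDiffAt c12.contDiffAt,
    ContDiffAt.laplacian_add c1.contDiffAt c2.contDiffAt,
    laplacian_coord (- lc m) (contDiff_lc m).neg 0, laplacian_coord (- lc 1) (contDiff_lc 1).neg 1]
  rw [InnerProductSpace.laplacian_const]
  rw [iteratedDeriv_neg, iteratedDeriv_neg, iteratedDeriv_two_lc, iteratedDeriv_two_lc]
  simp
  ring

lemma exp_uu (m : ℝ) (z : Plane) :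
    Real.exp (2 * uu m z)
      = (m ^ 2 + 1) * ((1 / (Real.cosh (m * z 0)) ^ 2) * (1 / (Real.cosh (z 1)) ^ 2)) := by
  unfold uu lc
  have hm : 0 < m ^ 2 + 1 := by positivity
  have e1 : 2 * (Real.log (m ^ 2 + 1) / 2 - Real.log (Real.cosh (m * z 0))
      - Real.log (Real.cosh (1 * z 1)))
      = Real.log (m ^ 2 + 1) - Real.log ((Real.cosh (m * z 0)) ^ 2)
        - Real.log ((Real.cosh (z 1)) ^ 2) := by
    rw [Real.log_pow, Real.log_pow, one_mul]; push_cast; ring
  rw [e1, Real.exp_sub, Real.exp_sub, Real.exp_log hm,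
    Real.exp_log (by have := Real.cosh_pos (m * z 0); positivity),
    Real.exp_log (by have := Real.cosh_pos (z 1); positivity)]
  field_simp

lemma ineq_uu (m : ℝ) (z : Plane) :
    Laplacian.laplacian (uu m) z + Real.exp (2 * uu m z) ≤ 0 := by
  rw [laplacian_uu, exp_uu]
  have h1 : 0 < 1 / (Real.cosh (m * z 0)) ^ 2 := by
    have := Real.cosh_pos (m * z 0); positivity
  have h1' : 1 / (Real.cosh (m * z 0)) ^ 2 ≤ 1 := by
    have := Real.one_le_cosh (m * z 0)
    rw [div_le_one (by positivity)]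
    nlinarith
  have h2 : 0 < 1 / (Real.cosh (z 1)) ^ 2 := by
    have := Real.cosh_pos (z 1); positivity
  have h2' : 1 / (Real.cosh (z 1)) ^ 2 ≤ 1 := by
    have := Real.one_le_cosh (z 1)
    rw [div_le_one (by positivity)]
    nlinarith
  have e : m ^ 2 / (Real.cosh (m * z 0)) ^ 2 = m ^ 2 * (1 / (Real.cosh (m * z 0)) ^ 2) := by
    ring
  rw [e]
  generalize 1 / (Real.cosh (m * z 0)) ^ 2 = A at *
  generalize 1 / (Real.cosh (z 1)) ^ 2 = B at *
  nlinarith [mul_nonneg (mul_nonneg (sq_nonneg m) h1.le) (sub_nonneg.mpr h2'),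
    mul_nonneg h2.le (sub_nonneg.mpr h1')]

/-- `∫ (cosh (a t))⁻² dt = 2 / a`. -/
lemma tendsto_quot_top {a : ℝ} (ha : 0 < a) :
    Tendsto (fun t => Real.sinh (a * t) / Real.cosh (a * t) / a) atTop (𝓝 (1 / a)) := by
  have h : ∀ t : ℝ, Real.sinh (a * t) / Real.cosh (a * t)
      = (1 - Real.exp (-(2 * (a * t)))) / (1 + Real.exp (-(2 * (a * t)))) := by
    intro t
    rw [Real.sinh_eq, Real.cosh_eq]
    have e : Real.exp (-(2 * (a * t))) = Real.exp (-(a * t)) * Real.exp (-(a * t)) := by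
      rw [← Real.exp_add]; ring_nf
    have e2 : Real.exp (a * t) * Real.exp (-(a * t)) = 1 := by
      rw [← Real.exp_add]; simp
    have p1 := Real.exp_pos (a * t)
    have p2 := Real.exp_pos (-(a * t))
    rw [e, div_div_div_cancel_right₀ (by norm_num), div_eq_div_iff (by positivity) (by positivity)]
    generalize Real.exp (a * t) = X at *
    generalize Real.exp (-(a * t)) = Y at *
    linear_combination (2 * Y) * e2 
  have hlim : Tendsto (fun t : ℝ => Real.exp (-(2 * (a * t)))) atTop (𝓝 0) := by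
    apply Real.tendsto_exp_atBot.comp
    apply tendsto_neg_atTop_atBot.comp
    exact (tendsto_id.const_mul_atTop ha).const_mul_atTop (by norm_num)
  have h3 : Tendsto (fun t => (1 - Real.exp (-(2 * (a * t)))) / (1 + Real.exp (-(2 * (a * t)))) / a)
      atTop (𝓝 ((1 - 0) / (1 + 0) / a)) :=
    (((tendsto_const_nhds.sub hlim).div (tendsto_const_nhds.add hlim) (by norm_num))).div_const a
  simp only [h]
  simpa using h3

lemma hasDerivAt_prim {a : ℝ} (ha : 0 < a) (t : ℝ) :
    HasDerivAt (fun t => Real.sinh (a * t) / Real.cosh (a * t) / a)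
      (1 / (Real.cosh (a * t)) ^ 2) t := by
  have h := (hasDerivAt_quot a t).div_const (a ^ 2)
  have hf : (fun t => Real.sinh (a * t) / Real.cosh (a * t) / a)
      = fun t => a * (Real.sinh (a * t) / Real.cosh (a * t)) / a ^ 2 := by
    funext s; field_simp
  rw [hf]
  refine h.congr_deriv ?_
  field_simp

lemma integrable_sech {a : ℝ} (ha : 0 < a) :
    Integrable (fun t : ℝ => 1 / (Real.cosh (a * t)) ^ 2) := by
  have h1 : IntegrableOn (fun t : ℝ => 1 / (Real.cosh (a * t)) ^ 2) (Ioi 0) :=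
    integrableOn_Ioi_deriv_of_nonneg' (fun x _ => hasDerivAt_prim ha x)
      (fun x _ => by have := Real.cosh_pos (a * x); positivity) (tendsto_quot_top ha)
  have h2 : IntegrableOn (fun t : ℝ => 1 / (Real.cosh (a * t)) ^ 2) (Iio 0) := by
    have := h1.comp_neg
    simpa using this
  rw [← integrableOn_univ, ← Set.Iio_union_Ici (a := (0:ℝ))]
  exact h2.union ((integrableOn_Ici_iff_integrableOn_Ioi).2 h1)

lemma integral_sech {a : ℝ} (ha : 0 < a) :
    ∫ t : ℝ, 1 / (Real.cosh (a * t)) ^ 2 = 2 / a := by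
  have hbot : Tendsto (fun t => Real.sinh (a * t) / Real.cosh (a * t) / a) atBot
      (𝓝 (-(1 / a))) := by
    have := (tendsto_quot_top ha).neg.comp tendsto_neg_atBot_atTop
    refine this.congr (fun t => ?_)
    simp [Real.sinh_neg, Real.cosh_neg]
    ring
  rw [integral_of_hasDerivAt_of_tendsto (fun x => hasDerivAt_prim ha x) (integrable_sech ha)
    hbot (tendsto_quot_top ha)]
  ring

/-- The two factors of the area density. -/
noncomputable def fac (m : ℝ) (i : Fin 2) (t : ℝ) : ℝ :=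
  if i = 0 then 1 / (Real.cosh (m * t)) ^ 2 else 1 / (Real.cosh t) ^ 2

lemma exp_uu' (m : ℝ) (z : Fin 2 → ℝ) :
    Real.exp (2 * uu m (WithLp.toLp 2 z)) = (m ^ 2 + 1) * ∏ i, fac m i (z i) := by
  rw [exp_uu, Fin.prod_univ_two]
  simp [fac]

lemma integrable_fac {m : ℝ} (hm : 0 < m) (i : Fin 2) : Integrable (fac m i) := by
  have h1 := integrable_sech hm
  have h2 := integrable_sech (a := 1) one_pos
  fin_cases i
  · have e : fac m ((fun i => i) ⟨0, by norm_num⟩) = fun t => 1 / (Real.cosh (m * t)) ^ 2 := by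
      funext t; simp [fac]
    rw [e]; exact h1
  · have e : fac m ((fun i => i) ⟨1, by norm_num⟩) = fun t => 1 / (Real.cosh (1 * t)) ^ 2 := by
      funext t; simp [fac]
    rw [e]; exact h2

lemma integrable_uu {m : ℝ} (hm : 0 < m) :
    Integrable (fun z : Plane => Real.exp (2 * uu m z)) := by
  rw [← (PiLp.volume_preserving_toLp (Fin 2)).integrable_comp_emb
    (MeasurableEquiv.toLp 2 _).measurableEmbedding]
  have : (fun z : Plane => Real.exp (2 * uu m z)) ∘ (WithLp.toLp 2)
      = fun z : Fin 2 → ℝ => (m ^ 2 + 1) * ∏ i, fac m i (z i) := by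
    funext z; exact exp_uu' m z
  rw [this]
  exact (Integrable.fintype_prod (f := fac m) (fun i => integrable_fac hm i)).const_mul _

lemma integral_uu {m : ℝ} (hm : 0 < m) :
    ∫ z : Plane, Real.exp (2 * uu m z) = 4 * (m + 1 / m) := by
  rw [← (PiLp.volume_preserving_toLp (Fin 2)).integral_comp
    (MeasurableEquiv.toLp 2 _).measurableEmbedding]
  simp_rw [exp_uu']
  rw [integral_const_mul, integral_fintype_prod_volume_eq_prod, Fin.prod_univ_two]
  have e0 : (∫ t, fac m 0 t) = 2 / m := by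
    simpa [fac] using integral_sech hm
  have e1 : (∫ t, fac m 1 t) = 2 / 1 := by
    have := integral_sech (a := 1) one_pos
    simpa [fac] using this
  rw [e0, e1]
  field_simp
  ring

/-- **Disproof (strong form).** For every `M` there is a `C^2` function `u` on the plane with
`Δ u + e^{2u} ≤ 0` everywhere, with integrable `e^{2u}`, and with area `∫ e^{2u} > M`.
(With `M = 4π` this is the negation of the posed inequality.) -/
theorem result : ∀ M : ℝ, ∃ u : EuclideanSpace ℝ (Fin 2) → ℝ,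
    ContDiff ℝ 2 u ∧
    (∀ x, Laplacian.laplacian u x + Real.exp (2 * u x) ≤ 0) ∧
    Integrable (fun x => Real.exp (2 * u x)) ∧
    M < ∫ x, Real.exp (2 * u x) := by
  intro M
  have hm : 0 < max M 1 := lt_max_of_lt_right one_pos
  refine ⟨uu (max M 1), contDiff_uu _, ineq_uu _, integrable_uu hm, ?_⟩
  rw [integral_uu hm]
  have h1 : M ≤ max M 1 := le_max_left _ _
  have h2 : 0 < 1 / max M 1 := by positivity
  nlinarith

end Pool.Agent.Results.MP_3ddb5a_an.UnboundedArea
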